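import Pool.Agent.Lib.MP_688fd0_co.SQ3.Iface
import Pool.Agent.Lib.MP_688fd0_co.SQ2.H80.Kap

/-!
Row KAP-E (helper80): the conditions on the voltages at the primes of `C`.
-/

set_option autoImplicit false

namespace Pool.Agent.Lib.MP_688fd0_co.SQ3

open Pool.Agent.Lib.MP_688fd0_co.OSF Pool.Agent.Lib.MP_688fd0_co.SQ2
open Pool.Agent.Lib.MP_688fd0_co.SQ2.KapP (crossed red_eq')

theorem kap : KapS := by
  intro G _ _ C _ eps A a s z chi ν hs hz ho hconj hν hgen haA _ _ hea hncen hE p hp
  have : NeZero (Nat.card C) := ⟨Nat.card_pos.ne'⟩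
  have hpp : p.Prime := Nat.prime_of_mem_primeFactors hp
  have hpd : p ∣ Nat.card C := Nat.dvd_of_mem_primeFactors hp
  have : Fact p.Prime := ⟨hpp⟩
  set f : ZMod (Nat.card C) →+* ZMod p := red (Nat.dvd_of_mem_primeFactors hp) with hf
  have hcr := crossed C s z chi ν ho hconj hν
  -- reduction modulo `p`
  let n : G → ZMod p := fun g => f (ν g)
  let χ : G → ZMod p := fun g => f (chi (QuotientGroup.mk' C g))
  let e : G → ZMod p := fun g => (((eps (QuotientGroup.mk' C g) : ℤˣ) : ℤ) : ZMod p)
  have nmul : ∀ g h, n (g * h) = n g + χ g * n h := fun g h => by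
    show f _ = _
    rw [hcr, map_add, map_mul]
  have χmul : ∀ g h, χ (g * h) = χ g * χ h := fun g h => by
    show f _ = _
    rw [map_mul, map_mul, map_mul]
  have emul : ∀ g h, e (g * h) = e g * e h := fun g h => by
    show (((eps (QuotientGroup.mk' C (g * h)) : ℤˣ) : ℤ) : ZMod p) = _
    rw [map_mul, map_mul, Units.val_mul, Int.cast_mul]
  have χ1 : χ 1 = 1 := by
    show f _ = _
    rw [map_one, map_one, map_one]
  have e1 : e 1 = 1 := by
    show (((eps (QuotientGroup.mk' C 1) : ℤˣ) : ℤ) : ZMod p) = _
    rw [map_one, map_one, Units.val_one, Int.cast_one]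
  have n1 : n 1 = 0 := by
    have := nmul 1 1
    rw [mul_one, χ1, one_mul] at this
    exact left_eq_add.1 this
  have χinv : ∀ g, χ g * χ g⁻¹ = 1 := fun g => by rw [← χmul, mul_inv_cancel, χ1]
  have einv : ∀ g, e g * e g⁻¹ = 1 := fun g => by rw [← emul, mul_inv_cancel, e1]
  have ninv : ∀ g, n g + χ g * n g⁻¹ = 0 := fun g => by rw [← nmul, mul_inv_cancel, n1]
  have hzC : z ∈ C := by rw [← hz]; exact Subgroup.mem_zpowers z
  have hmz : QuotientGroup.mk' C z = 1 := by
    rw [QuotientGroup.mk'_apply, QuotientGroup.eq_one_iff]; exact hzC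
  -- `n z = 1`, `χ z = 1`
  have χz : χ z = 1 := by
    show f (chi (QuotientGroup.mk' C z)) = 1
    rw [hmz, map_one, map_one]
  have nz : n z = 1 := by
    have e := hν z
    rw [hmz, map_one, mul_one] at e
    have e1 : z ^ 1 = z ^ (ν z).val := by rw [pow_one]; exact e
    rw [pow_inj_mod, ho] at e1
    have e2 : ((1 : ℕ) : ZMod (Nat.card C)) = (((ν z).val : ℕ) : ZMod (Nat.card C)) :=
      (ZMod.natCast_eq_natCast_iff' _ _ _).2 e1
    rw [ZMod.natCast_zmod_val, Nat.cast_one] at e2
    show f (ν z) = 1
    rw [← e2, map_one]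
  by_cases hα : f (chi (QuotientGroup.mk' C a)) = 1
  · -- case `alpha = 1`
    refine Or.inr ⟨hα, ?_, ?_⟩
    · -- `n a ≠ 0`
      intro na
      have χa : χ a = 1 := hα
      have na' : n a = 0 := na
      let K : Subgroup G :=
        { carrier := {g | n g = 0 ∧ χ g = 1}
          mul_mem' := by
            rintro x y ⟨h1, h2⟩ ⟨h3, h4⟩
            refine ⟨?_, ?_⟩
            · rw [nmul, h1, h3, mul_zero, add_zero]
            · rw [χmul, h2, h4, mul_one]
          one_mem' := ⟨n1, χ1⟩
          inv_mem' := by
            rintro x ⟨h1, h2⟩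
            have e1 := ninv x
            have e2 := χinv x
            rw [h2, one_mul] at e2
            rw [h1, h2, one_mul, zero_add] at e1
            exact ⟨e1, e2⟩ }
      have hKn : K.Normal := by
        refine ⟨?_⟩
        rintro x ⟨h1, h2⟩ g
        refine ⟨?_, ?_⟩
        · rw [nmul, nmul, χmul, h1, h2, mul_zero, add_zero, mul_one]
          exact ninv g
        · rw [χmul, χmul, h2, mul_one]
          exact χinv g
      have haK : a ∈ K := ⟨na', χa⟩
      have hEK : Ecl (eps.comp (QuotientGroup.mk' C)) a ≤ K := by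
        unfold Ecl
        have := hKn
        refine Subgroup.normalClosure_le_normal ?_
        rintro x ⟨g, rfl⟩
        exact K.mul_mem (hKn.conj_mem a haK g) (K.inv_mem (K.zpow_mem haK _))
      have hzK : z ∈ K := hEK (hE hzC)
      have h0 : n z = 0 := hzK.1
      rw [nz] at h0
      exact one_ne_zero h0
    · -- `chi ≠ eps` on some label
      by_contra hcon
      push Not at hcon
      have hχe : ∀ g, χ g = e g := by
        intro g
        have hg : g ∈ Subgroup.closure A := by rw [hgen]; trivial
        refine Subgroup.closure_induction (p := fun g _ => χ g = e g) ?_ ?_ ?_ ?_ hg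
        · intro t ht
          exact hcon t ht
        · rw [χ1, e1]
        · intro x y _ _ hx hy
          rw [χmul, emul, hx, hy]
        · intro x _ hx
          have e1 := χinv x
          have e2 := einv x
          have h0 : χ x ≠ 0 := fun h => by rw [h, zero_mul] at e1; exact zero_ne_one e1
          rw [← hx] at e2
          exact mul_left_cancel₀ h0 (e1.trans e2.symm)
      obtain ⟨m', hm'⟩ := hpd
      have hm0 : 0 < m' := by
        rcases Nat.eq_zero_or_pos m' with h | h
        · rw [h, mul_zero] at hm'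
          exact absurd hm' Nat.card_pos.ne'
        · exact h
      have hone : z ^ m' = 1 := by
        refine hncen (z ^ m') (Subgroup.pow_mem _ hzC m') ?_
        intro g
        have key : ∀ q, s q * z ^ m' * (s q)⁻¹ = (z ^ m') ^ (chi q).val := by
          intro q
          have e : (s q * z * (s q)⁻¹) ^ m' = s q * z ^ m' * (s q)⁻¹ := conj_pow
          rw [← e, hconj, ← pow_mul, ← pow_mul, mul_comm]
        have hp1 : (z ^ m') ^ p = 1 := by
          rw [← pow_mul, mul_comm, ← hm', ← ho, pow_orderOf_eq_one]
        -- the exponent `eps g`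
        have hexp : (z ^ m') ^ (chi (QuotientGroup.mk' C g)).val =
            (z ^ m') ^ ((eps (QuotientGroup.mk' C g) : ℤˣ) : ℤ) := by
          rw [← zpow_natCast, ← mul_inv_eq_one, ← zpow_sub]
          have h1 : (p : ℤ) ∣ (((chi (QuotientGroup.mk' C g)).val : ℕ) : ℤ) -
              ((eps (QuotientGroup.mk' C g) : ℤˣ) : ℤ) := by
            rw [← ZMod.intCast_zmod_eq_zero_iff_dvd, Int.cast_sub, Int.cast_natCast, sub_eq_zero]
            have h2 := hχe g
            have h3 : f (chi (QuotientGroup.mk' C g)) = (((eps (QuotientGroup.mk' C g) : ℤˣ) : ℤ) : ZMod p) := h2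
            rw [← h3, hf, red_eq' (Nat.dvd_of_mem_primeFactors hp)]
          obtain ⟨t, ht⟩ := h1
          rw [ht, zpow_mul, zpow_natCast, hp1, one_zpow]
        rw [← hexp, ← key]
        conv_lhs => rw [hν g]
        have hc : z ^ (ν g).val * z ^ m' * (z ^ (ν g).val)⁻¹ = z ^ m' := by
          rw [← pow_add, add_comm, pow_add, mul_inv_cancel_right]
        have hc2 : ∀ i : ℕ, z ^ (ν g).val * z ^ i * (z ^ (ν g).val)⁻¹ = z ^ i := by
          intro i
          rw [← pow_add, add_comm, pow_add, mul_inv_cancel_right]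
        rw [mul_inv_rev]
        calc z ^ (ν g).val * s (QuotientGroup.mk' C g) * z ^ m' *
              ((s (QuotientGroup.mk' C g))⁻¹ * (z ^ (ν g).val)⁻¹)
            = z ^ (ν g).val * (s (QuotientGroup.mk' C g) * z ^ m' * (s (QuotientGroup.mk' C g))⁻¹) *
              (z ^ (ν g).val)⁻¹ := by simp only [mul_assoc]
          _ = s (QuotientGroup.mk' C g) * z ^ m' * (s (QuotientGroup.mk' C g))⁻¹ := by
            rw [key, ← pow_mul, hc2]
      have hd := orderOf_dvd_of_pow_eq_one hone
      rw [ho, hm'] at hd
      have := Nat.le_of_dvd hm0 hd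
      have h2 := hpp.two_le
      nlinarith
  · -- case `alpha ≠ 1`
    refine Or.inl ⟨hα, ?_⟩
    by_contra hcon
    push Not at hcon
    -- `κ` vanishes on `A`, hence everywhere
    have hk : ∀ g, (χ a - 1) * n g - (χ g - 1) * n a = 0 := by
      intro g
      have hg : g ∈ Subgroup.closure A := by rw [hgen]; trivial
      refine Subgroup.closure_induction (p := fun g _ => (χ a - 1) * n g - (χ g - 1) * n a = 0) ?_ ?_ ?_ ?_ hg
      · intro t ht
        have := hcon t ht
        rw [map_sub, map_mul, map_mul, map_sub, map_sub, map_one] at this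
        exact this
      · rw [n1, χ1]; ring
      · intro x y _ _ hx hy
        rw [nmul, χmul]
        linear_combination hx + χ x * hy
      · intro x _ hx
        have e1 := ninv x
        have e2 := χinv x
        have e3 : χ x * ((χ a - 1) * n x⁻¹ - (χ x⁻¹ - 1) * n a) = 0 := by
          linear_combination (χ a - 1) * e1 - n a * e2 - hx
        rcases mul_eq_zero.1 e3 with h | h
        · rw [h, zero_mul] at e2
          exact absurd e2 zero_ne_one
        · exact h
    have χa : χ a = 1 := by
      have := hk z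
      rw [nz, χz] at this
      linear_combination this
    exact hα χa

end Pool.Agent.Lib.MP_688fd0_co.SQ3
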